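import Mathlib

/-!
Shared definitions for the counterexample to Loewner's conjecture (index 2 umbilic of a smooth function).
-/

set_option autoImplicit false
open Complex

namespace Pool.Agent.TH196.Loew

/-- half of the modes `(j,k,A,B)`: the coefficient of `V^j W^k` in `p` is `(A + B i)/200`;
the other half is obtained by conjugation. -/
def halfModes : List (ℤ × ℤ × ℤ × ℤ) :=
  [(0, 1, -1778, 0), (0, 2, 236, 0), (0, 3, -24, 0), (0, 4, 4, 0),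
   (1, 1, -7, -34), (1, -1, 7, 34),
   (1, 2, -25, -32), (1, -2, 25, 32),
   (1, 3, -12, 0), (1, -3, 12, 0),
   (1, 4, 15, 0), (1, -4, -15, 0),
   (1, 5, 1, -7), (1, -5, -1, 7),
   (2, 4, 0, -1), (2, -4, 0, -1),
   (2, 5, 0, -3), (2, -5, 0, -3)]

/-- all modes `(j,k,c)`: `p = ∑ c V^j W^k`. -/
noncomputable def modes : List (ℤ × ℤ × ℂ) :=
  halfModes.flatMap fun m =>
    [(m.1, m.2.1, ((m.2.2.1 : ℂ) + (m.2.2.2 : ℂ) * I) / 200),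
     (-m.1, -m.2.1, ((m.2.2.1 : ℂ) - (m.2.2.2 : ℂ) * I) / 200)]

/-- the trigonometric polynomial `p` -/
noncomputable def pp (V W : ℂ) : ℂ := (modes.map fun m => m.2.2 * V ^ m.1 * W ^ m.2.1).sum

/-- the leading coefficient -/
noncomputable def G0 (V W : ℂ) : ℂ :=
  1 + (modes.map fun m => m.2.2 * V ^ m.1 * W ^ m.2.1 *
    ((I * m.1 - m.2.1 * (2 + W + W⁻¹) / 8) ^ 2
      + m.2.1 * (W - W⁻¹) * (2 + W + W⁻¹) / 64)).sum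

/-- rescaled logarithmic derivative of `W`: `s² ω`, `s = 1/u` -/
noncomputable def om (s W : ℂ) : ℂ :=
  (2 + W + W⁻¹) / 8 + 2 * s ^ 4 * (2 - W - W⁻¹) + 2 * s ^ 2 * (W - W⁻¹)

/-- `s² λ` -/
noncomputable def mu (j k : ℤ) (s W : ℂ) : ℂ := I * j - k * om s W + 2 * s + 4 * s ^ 2

/-- `s⁴ 𝔅ω` -/
noncomputable def dom (s W : ℂ) : ℂ :=
  -4 * s ^ 2 * (2 + W + W⁻¹) / 8 - (W - W⁻¹) * om s W / 8 + 8 * s ^ 6 * (2 - W - W⁻¹)
    + 2 * s ^ 4 * (W - W⁻¹) * om s W - 2 * s ^ 2 * (W + W⁻¹) * om s W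

/-- `s⁴ (λ² + 𝔅λ - 2 λ)` -/
noncomputable def AA (j k : ℤ) (s W : ℂ) : ℂ :=
  mu j k s W ^ 2 + (-4 * s ^ 3 - 4 * I * j * s ^ 2 - k * dom s W) - 2 * s ^ 2 * mu j k s W

/-- the full factor: `Q = 4 u⁴ e^{-u} z² · GG (1/u) V W`. -/
noncomputable def GG (s V W : ℂ) : ℂ :=
  1 - 2 * s + (modes.map fun m => m.2.2 * V ^ m.1 * W ^ m.2.1 * AA m.1 m.2.1 s W).sum

/-- `u = 1/|z|²` -/
noncomputable def uu (z : ℂ) : ℝ := (‖z‖ ^ 2)⁻¹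

/-- `V = exp(-i u²/4)` -/
noncomputable def VV (z : ℂ) : ℂ := Complex.exp (-(I * (uu z : ℂ) ^ 2 / 4))

/-- `W = (4x + i u² y)/(4x - i u² y)` -/
noncomputable def WW (z : ℂ) : ℂ :=
  (4 * (z.re : ℂ) + (uu z : ℂ) ^ 2 * (z.im : ℂ) * I) / (4 * (z.re : ℂ) - (uu z : ℂ) ^ 2 * (z.im : ℂ) * I)

/-- `g = 1 + 4 |z|⁴ p(V,W)` -/
noncomputable def gg (z : ℂ) : ℂ := 1 + 4 * (‖z‖ : ℂ) ^ 4 * pp (VV z) (WW z)

/-- the counterexample `f = e^{-1/|z|²} (1 + 4 |z|⁴ p)`, `f 0 = 0`. -/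
noncomputable def ff (z : ℂ) : ℝ := if z = 0 then 0 else Real.exp (-uu z) * (gg z).re

/-- the quantity `Q = f_xx - f_yy + 2 i f_xy` of the frozen statement -/
noncomputable def QQ (f : ℂ → ℝ) (z : ℂ) : ℂ :=
  ((iteratedFDeriv ℝ 2 f z ![(1 : ℂ), 1] - iteratedFDeriv ℝ 2 f z ![Complex.I, Complex.I] : ℝ) : ℂ)
            + 2 * ((iteratedFDeriv ℝ 2 f z ![(1 : ℂ), Complex.I] : ℝ) : ℂ) * Complex.I

end Pool.Agent.TH196.Loew
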