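import Pool.Agent.TH196.Loew.Defs

set_option autoImplicit false
open Complex

namespace Pool.Agent.TH196.Loew

theorem AA_zero (j k : ℤ) (W : ℂ) :
    AA j k 0 W = (I * j - k * (2 + W + W⁻¹) / 8) ^ 2 + k * (W - W⁻¹) * (2 + W + W⁻¹) / 64 := by
  simp only [AA, mu, dom, om]
  ring

theorem GG_zero (V W : ℂ) : GG 0 V W = G0 V W := by
  unfold GG G0
  simp only [AA_zero]
  simp

/-- the compact set `[0,1] × S¹ × S¹` -/
def KK : Set (ℝ × ℂ × ℂ) := Set.Icc (0 : ℝ) 1 ×ˢ (Metric.sphere (0 : ℂ) 1 ×ˢ Metric.sphere (0 : ℂ) 1)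

theorem KK_compact : IsCompact KK :=
  isCompact_Icc.prod ((isCompact_sphere _ _).prod (isCompact_sphere _ _))

theorem ne_of_sphere {a : ℂ} (h : a ∈ Metric.sphere (0 : ℂ) 1) : a ≠ 0 := by
  rintro rfl
  simp at h

theorem GG_continuousOn :
    ContinuousOn (fun q : ℝ × ℂ × ℂ => GG (q.1 : ℂ) q.2.1 q.2.2) KK := by
  have hs : ContinuousOn (fun q : ℝ × ℂ × ℂ => (q.1 : ℂ)) KK :=
    (Complex.continuous_ofReal.comp continuous_fst).continuousOn
  have hV : ContinuousOn (fun q : ℝ × ℂ × ℂ => q.2.1) KK :=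
    (continuous_fst.comp continuous_snd).continuousOn
  have hW : ContinuousOn (fun q : ℝ × ℂ × ℂ => q.2.2) KK :=
    (continuous_snd.comp continuous_snd).continuousOn
  have hWi : ContinuousOn (fun q : ℝ × ℂ × ℂ => (q.2.2)⁻¹) KK :=
    hW.inv₀ fun q hq => ne_of_sphere hq.2.2
  have hom : ContinuousOn (fun q : ℝ × ℂ × ℂ => om (q.1 : ℂ) q.2.2) KK := by
    unfold om
    fun_prop
  have hdom : ContinuousOn (fun q : ℝ × ℂ × ℂ => dom (q.1 : ℂ) q.2.2) KK := by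
    unfold dom
    fun_prop
  have hmu : ∀ j k : ℤ, ContinuousOn (fun q : ℝ × ℂ × ℂ => mu j k (q.1 : ℂ) q.2.2) KK := by
    intro j k
    unfold mu
    fun_prop
  have hAA : ∀ j k : ℤ, ContinuousOn (fun q : ℝ × ℂ × ℂ => AA j k (q.1 : ℂ) q.2.2) KK := by
    intro j k
    unfold AA
    have := hmu j k
    fun_prop
  have hVz : ∀ j : ℤ, ContinuousOn (fun q : ℝ × ℂ × ℂ => q.2.1 ^ j) KK := fun j =>
    hV.zpow₀ j fun q hq => Or.inl (ne_of_sphere hq.2.1)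
  have hWz : ∀ j : ℤ, ContinuousOn (fun q : ℝ × ℂ × ℂ => q.2.2 ^ j) KK := fun j =>
    hW.zpow₀ j fun q hq => Or.inl (ne_of_sphere hq.2.2)
  unfold GG
  refine ContinuousOn.add (by fun_prop) ?_
  refine continuousOn_list_sum modes fun m _ => ?_
  exact (((continuousOn_const).mul (hVz _)).mul (hWz _)).mul (hAA _ _)

theorem GG_uniform : ∃ s0 : ℝ, 0 < s0 ∧ ∀ s : ℝ, 0 < s → s < s0 → ∀ V W : ℂ, ‖V‖ = 1 → ‖W‖ = 1 →
    ‖GG (s : ℂ) V W - G0 V W‖ < 1 / 100 := by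
  have h := KK_compact.uniformContinuousOn_of_continuous GG_continuousOn
  rw [Metric.uniformContinuousOn_iff] at h
  obtain ⟨d, hd, h⟩ := h (1 / 100) (by norm_num)
  refine ⟨min d 1, by positivity, fun s hs hs' V W hV hW => ?_⟩
  have h1 := h (s, V, W) (by
    refine ⟨⟨hs.le, (hs'.trans_le (min_le_right _ _)).le⟩, ?_, ?_⟩ <;> simpa) (0, V, W) (by
    refine ⟨⟨le_rfl, zero_le_one⟩, ?_, ?_⟩ <;> simpa) (by
    rw [Prod.dist_eq]
    simp only [dist_self]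
    rw [max_eq_left dist_nonneg, Real.dist_eq, sub_zero, abs_of_pos hs]
    exact hs'.trans_le (min_le_left _ _))
  rw [dist_eq_norm] at h1
  simpa [GG_zero] using h1

end Pool.Agent.TH196.Loew
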