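import Pool.Agent.TH196.Loew.Defs
import Pool.Agent.TH196.Loew.Unif
import Pool.Agent.TH521.LW2889
import Pool.Agent.TH883.LW2890
import Pool.Agent.TH889.LW2891
import Pool.Agent.TH656.LW2892
import Pool.Agent.TH111.LW2893

set_option autoImplicit false
open Complex
open scoped ContDiff

namespace Pool.Agent.TH196.Loew

open Pool.Agent.TH521.LW2889 (ff_contDiff QQ_ff_zero)
open Pool.Agent.TH883.LW (QQ_ff)
open Pool.Agent.TH889.LWG (G0_lower)
open TH656.LW (arc1 arc2 arc3 arc4)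
open Pool.Agent.TH111.Loew (exists_lift)

theorem norm_cayley (X Y : ℝ) (h : X ≠ 0 ∨ Y ≠ 0) : ‖((X : ℂ) + Y * I) / (X - Y * I)‖ = 1 := by
  have e : ((X : ℂ) - Y * I) = (starRingEnd ℂ) ((X : ℂ) + Y * I) := by
    simp [sub_eq_add_neg]
  have hne : ((X : ℂ) + Y * I) ≠ 0 := by
    intro h0
    have h1 := congrArg Complex.re h0
    have h2 := congrArg Complex.im h0
    simp at h1 h2
    rcases h with h | h
    · exact h h1
    · exact h h2
  rw [e, norm_div, RCLike.norm_conj, div_self (by simpa using hne)]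

theorem uu_pos {z : ℂ} (hz : z ≠ 0) : 0 < uu z := by
  unfold uu
  positivity

theorem norm_VV (z : ℂ) : ‖VV z‖ = 1 := by
  unfold VV
  have : -(I * (uu z : ℂ) ^ 2 / 4) = ((-(uu z) ^ 2 / 4 : ℝ) : ℂ) * I := by
    push_cast; ring
  rw [this, Complex.norm_exp_ofReal_mul_I]

theorem WW_eq (z : ℂ) : WW z = (((4 * z.re : ℝ) : ℂ) + ((uu z ^ 2 * z.im : ℝ) : ℂ) * I) /
    (((4 * z.re : ℝ) : ℂ) - ((uu z ^ 2 * z.im : ℝ) : ℂ) * I) := by
  unfold WW
  push_cast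
  rfl

theorem norm_WW {z : ℂ} (hz : z ≠ 0) : ‖WW z‖ = 1 := by
  rw [WW_eq]
  apply norm_cayley
  by_contra hcon
  push Not at hcon
  obtain ⟨h1, h2⟩ := hcon
  apply hz
  have hu := uu_pos hz
  apply Complex.ext
  · simpa using h1
  · have : uu z ^ 2 ≠ 0 := by positivity
    simpa [this] using h2

theorem uu_inv (z : ℂ) : ((uu z : ℂ))⁻¹ = ((‖z‖ ^ 2 : ℝ) : ℂ) := by
  unfold uu
  push_cast
  rw [inv_inv]

theorem GG_ne_zero {s0 : ℝ} (hs : ∀ s : ℝ, 0 < s → s < s0 → ∀ V W : ℂ, ‖V‖ = 1 → ‖W‖ = 1 →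
    ‖GG (s : ℂ) V W - G0 V W‖ < 1 / 100) {s : ℝ} (h0 : 0 < s) (h1 : s < s0) (V W : ℂ)
    (hV : ‖V‖ = 1) (hW : ‖W‖ = 1) : GG (s : ℂ) V W ≠ 0 := by
  intro h
  have h2 := hs s h0 h1 V W hV hW
  have h3 := G0_lower V W hV hW
  rw [h, zero_sub, norm_neg] at h2
  linarith

theorem exists_radius (ε : ℝ) (hεpos : 0 < ε) : ∃ (n : ℕ) (ρ r : ℝ), ρ = 8 * Real.pi * n ∧
    0 < ρ ∧ 0 < r ∧ r ^ 4 = 1 / ρ ∧ r < ε := by
  obtain ⟨n, hn⟩ : ∃ n : ℕ, 1 / ε ^ 4 < (n : ℝ) := exists_nat_gt _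
  have hnpos : (0 : ℝ) < n := lt_trans (by positivity) hn
  have hpi := Real.pi_pos
  have hρpos : 0 < 8 * Real.pi * n := by positivity
  have hr4 : (Real.sqrt (Real.sqrt (1 / (8 * Real.pi * n)))) ^ 4 = 1 / (8 * Real.pi * n) := by
    have : ∀ x : ℝ, x ^ 4 = (x ^ 2) ^ 2 := fun x => by ring
    rw [this, Real.sq_sqrt (by positivity), Real.sq_sqrt (by positivity)]
  refine ⟨n, 8 * Real.pi * n, Real.sqrt (Real.sqrt (1 / (8 * Real.pi * n))), rfl, hρpos,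
    by positivity, hr4, ?_⟩
  have h1 : (Real.sqrt (Real.sqrt (1 / (8 * Real.pi * n)))) ^ 4 < ε ^ 4 := by
    rw [hr4, one_div, inv_lt_comm₀ hρpos (by positivity)]
    rw [one_div] at hn
    have : (n : ℝ) ≤ 8 * Real.pi * n := by
      nlinarith [Real.pi_gt_three]
    linarith
  exact lt_of_pow_lt_pow_left₀ 4 hεpos.le h1

theorem GG_cont_sphere {s : ℝ} (h0 : 0 ≤ s) (h1 : s ≤ 1) :
    ContinuousOn (fun W : ℂ => GG (s : ℂ) 1 W) (Metric.sphere (0 : ℂ) 1) := by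
  have h2 : ContinuousOn (fun W : ℂ => (s, (1 : ℂ), W)) (Metric.sphere (0 : ℂ) 1) := by
    fun_prop
  have h3 : Set.MapsTo (fun W : ℂ => (s, (1 : ℂ), W)) (Metric.sphere (0 : ℂ) 1) KK := by
    intro W hW
    refine ⟨⟨h0, h1⟩, ?_, hW⟩
    simp
  have h4 := GG_continuousOn.comp h2 h3
  simp only [Function.comp_def] at h4
  exact h4

theorem main :
    ¬ (∀ (f : ℂ → ℝ) (ε : ℝ) (Q : ℂ → ℂ),
      0 < ε →
      ContDiffOn ℝ ∞ f (Metric.ball (0 : ℂ) ε) →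
      (∀ z : ℂ, Q z =
          ((iteratedFDeriv ℝ 2 f z ![(1 : ℂ), 1] - iteratedFDeriv ℝ 2 f z ![Complex.I, Complex.I] : ℝ) : ℂ)
            + 2 * ((iteratedFDeriv ℝ 2 f z ![(1 : ℂ), Complex.I] : ℝ) : ℂ) * Complex.I) →
      Q 0 = 0 →
      (∀ z ∈ Metric.ball (0 : ℂ) ε, z ≠ 0 → Q z ≠ 0) →
      ∀ r : ℝ, 0 < r → r < ε →
        ∀ θ : ℝ → ℝ, ContinuousOn θ (Set.Icc 0 (2 * Real.pi)) →
          (∀ t ∈ Set.Icc 0 (2 * Real.pi),
              Q ((r : ℂ) * Complex.exp ((t : ℂ) * Complex.I))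
                = ((‖Q ((r : ℂ) * Complex.exp ((t : ℂ) * Complex.I))‖ : ℝ) : ℂ)
                    * Complex.exp ((θ t : ℂ) * Complex.I)) →
          θ (2 * Real.pi) - θ 0 ≤ 4 * Real.pi) := by
  intro hall
  obtain ⟨s0, hs0, hs⟩ := GG_uniform
  set ε : ℝ := min s0 1 with hε
  have hεpos : 0 < ε := by positivity
  have hsq : ∀ x : ℝ, 0 ≤ x → x < ε → x ^ 2 < s0 := by
    intro x hx hx'
    have h1 : x < 1 := hx'.trans_le (min_le_right _ _)
    have h2 : x < s0 := hx'.trans_le (min_le_left _ _)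
    nlinarith
  have hball : ∀ z ∈ Metric.ball (0 : ℂ) ε, z ≠ 0 → QQ ff z ≠ 0 := by
    intro z hz hz0
    rw [mem_ball_zero_iff] at hz
    rw [QQ_ff z hz0, uu_inv]
    have hn : 0 < ‖z‖ := norm_pos_iff.mpr hz0
    have hu := uu_pos hz0
    have hG := GG_ne_zero hs (s := ‖z‖ ^ 2) (by positivity) (hsq _ hn.le hz) (VV z) (WW z)
      (norm_VV z) (norm_WW hz0)
    have hu' : (uu z : ℂ) ≠ 0 := by exact_mod_cast hu.ne'
    have hE : ((Real.exp (-uu z) : ℝ) : ℂ) ≠ 0 := by exact_mod_cast (Real.exp_pos _).ne'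
    refine mul_ne_zero (mul_ne_zero (mul_ne_zero (mul_ne_zero (by norm_num) (pow_ne_zero _ hu')) hE)
      (pow_ne_zero _ hz0)) hG
  -- choice of the radius
  obtain ⟨n, ρ, r, hρ, hρpos, hrpos, hr4, hrε⟩ := exists_radius ε hεpos
  have hpi := Real.pi_pos
  have hr1 : r < 1 := hrε.trans_le (min_le_right _ _)
  have hr2 : 0 < r ^ 2 := by positivity
  have hr2s : r ^ 2 < s0 := hsq r hrpos.le hrε
  -- the lift
  obtain ⟨F, hF⟩ : ∃ F : ℂ → ℂ, F = fun W => GG ((r ^ 2 : ℝ) : ℂ) 1 W := ⟨_, rfl⟩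
  have hFv : ∀ W, F W = GG ((r ^ 2 : ℝ) : ℂ) 1 W := fun W => by rw [hF]
  have hFc : ContinuousOn F (Metric.sphere (0 : ℂ) 1) := by
    rw [hF]
    exact GG_cont_sphere hr2.le (by nlinarith)
  have hclose : ∀ X Y : ℝ, (X ≠ 0 ∨ Y ≠ 0) →
      ‖F ((X + Y * I) / (X - Y * I)) - G0 1 ((X + Y * I) / (X - Y * I))‖ < 1 / 100 := by
    intro X Y h
    rw [hFv]
    exact hs _ hr2 hr2s _ _ (by simp) (norm_cayley X Y h)
  have hre : ∀ X Y : ℝ, (X ≠ 0 ∨ Y ≠ 0) →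
      |(F ((X + Y * I) / (X - Y * I))).re - (G0 1 ((X + Y * I) / (X - Y * I))).re| < 1 / 100 := by
    intro X Y h
    rw [← Complex.sub_re]
    exact (Complex.abs_re_le_norm _).trans_lt (hclose X Y h)
  have him : ∀ X Y : ℝ, (X ≠ 0 ∨ Y ≠ 0) →
      |(F ((X + Y * I) / (X - Y * I))).im - (G0 1 ((X + Y * I) / (X - Y * I))).im| < 1 / 100 := by
    intro X Y h
    rw [← Complex.sub_im]
    exact (Complex.abs_im_le_norm _).trans_lt (hclose X Y h)
  obtain ⟨ψ, hψc, hψ, hψ2⟩ := exists_lift F ρ (-(2 / 5)) 0 (5 / 8) 1 hρpos (by norm_num)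
    (by norm_num) (by norm_num) hFc
    (fun X Y h0 h1 h2 => by
      have := arc1 X Y h0 h1 h2
      have h3 := abs_lt.mp (him X Y h0)
      linarith [h3.1])
    (fun X Y h0 h1 h2 => by
      have := arc2 X Y h0 h1 h2
      have h3 := abs_lt.mp (hre X Y h0)
      linarith [h3.2])
    (fun X Y h0 h1 h2 => by
      have := arc3 X Y h0 h1 h2
      have h3 := abs_lt.mp (him X Y h0)
      linarith [h3.2])
    (fun X Y h0 h1 h2 => by
      have := arc4 X Y h0 h1 h2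
      have h3 := abs_lt.mp (hre X Y h0)
      linarith [h3.1])
  -- the formula on the circle
  have hcirc : ∀ t : ℝ, QQ ff ((r : ℂ) * Complex.exp ((t : ℂ) * Complex.I)) =
      ((4 * ρ ^ 2 * Real.exp (-(r ^ 2)⁻¹) * r ^ 2 *
        ‖F ((4 * (Real.cos t : ℂ) + ρ * (Real.sin t : ℂ) * I) /
          (4 * (Real.cos t : ℂ) - ρ * (Real.sin t : ℂ) * I))‖ : ℝ) : ℂ) *
        Complex.exp (((2 * t + ψ t : ℝ) : ℂ) * I) := by
    intro t
    set z : ℂ := (r : ℂ) * Complex.exp ((t : ℂ) * Complex.I) with hz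
    have hzn : ‖z‖ = r := by
      rw [hz, norm_mul, Complex.norm_exp_ofReal_mul_I, mul_one, Complex.norm_real,
        Real.norm_eq_abs, abs_of_pos hrpos]
    have hz0 : z ≠ 0 := by
      rw [← norm_pos_iff, hzn]; exact hrpos
    have huz : uu z = (r ^ 2)⁻¹ := by
      unfold uu; rw [hzn]
    have hu2 : uu z ^ 2 = ρ := by
      rw [huz, inv_pow, ← pow_mul, hr4, one_div, inv_inv]
    have hzre : z.re = r * Real.cos t := by
      rw [hz, Complex.re_ofReal_mul, Complex.exp_ofReal_mul_I_re]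
    have hzim : z.im = r * Real.sin t := by
      rw [hz, Complex.im_ofReal_mul, Complex.exp_ofReal_mul_I_im]
    have hrc : (r : ℂ) ≠ 0 := by exact_mod_cast hrpos.ne'
    have hW : WW z = (4 * (Real.cos t : ℂ) + ρ * (Real.sin t : ℂ) * I) /
          (4 * (Real.cos t : ℂ) - ρ * (Real.sin t : ℂ) * I) := by
      rw [WW_eq, hu2, hzre, hzim]
      have e1 : (((4 * (r * Real.cos t) : ℝ) : ℂ) + ((ρ * (r * Real.sin t) : ℝ) : ℂ) * I) =
        r * (4 * (Real.cos t : ℂ) + ρ * (Real.sin t : ℂ) * I) := by push_cast; ring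
      have e2 : (((4 * (r * Real.cos t) : ℝ) : ℂ) - ((ρ * (r * Real.sin t) : ℝ) : ℂ) * I) =
        r * (4 * (Real.cos t : ℂ) - ρ * (Real.sin t : ℂ) * I) := by push_cast; ring
      rw [e1, e2, mul_div_mul_left _ _ hrc]
    have hV : VV z = 1 := by
      unfold VV
      have : -(I * (uu z : ℂ) ^ 2 / 4) = ((-(n : ℤ) : ℤ) : ℂ) * (2 * Real.pi * I) := by
        have h5 : (uu z : ℂ) ^ 2 = ((8 * Real.pi * n : ℝ) : ℂ) := by
          rw [← hρ, ← hu2]; push_cast; ring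
        rw [h5]
        push_cast
        ring
      rw [this, Complex.exp_int_mul_two_pi_mul_I]
    have hinv : ((uu z : ℂ))⁻¹ = ((r ^ 2 : ℝ) : ℂ) := by
      rw [uu_inv, hzn]
    have hFW : GG ((uu z : ℂ)⁻¹) (VV z) (WW z) =
        ‖F ((4 * (Real.cos t : ℂ) + ρ * (Real.sin t : ℂ) * I) /
          (4 * (Real.cos t : ℂ) - ρ * (Real.sin t : ℂ) * I))‖ * Complex.exp ((ψ t : ℂ) * I) := by
      rw [← hψ t, hinv, hV, hW, hFv]
    rw [QQ_ff z hz0, hFW]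
    have hu4 : (uu z : ℂ) ^ 4 = ((ρ ^ 2 : ℝ) : ℂ) := by
      rw [← hu2]; push_cast; ring
    have hz2 : z ^ 2 = ((r ^ 2 : ℝ) : ℂ) * Complex.exp (((2 * t : ℝ) : ℂ) * I) := by
      rw [hz, mul_pow, ← Complex.exp_nat_mul]
      push_cast
      ring_nf
    rw [hu4, hz2, huz]
    have hexp : Complex.exp (((2 * t + ψ t : ℝ) : ℂ) * I) =
        Complex.exp (((2 * t : ℝ) : ℂ) * I) * Complex.exp ((ψ t : ℂ) * I) := by
      rw [← Complex.exp_add]
      push_cast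
      ring_nf
    rw [hexp]
    push_cast
    ring
  have hfinal := hall ff ε (QQ ff) hεpos ff_contDiff.contDiffOn (fun z => rfl) QQ_ff_zero hball
    r hrpos hrε (fun t => 2 * t + ψ t) (by fun_prop) (by
      intro t _
      have h1 := hcirc t
      have hK : 0 ≤ 4 * ρ ^ 2 * Real.exp (-(r ^ 2)⁻¹) * r ^ 2 *
        ‖F ((4 * (Real.cos t : ℂ) + ρ * (Real.sin t : ℂ) * I) /
          (4 * (Real.cos t : ℂ) - ρ * (Real.sin t : ℂ) * I))‖ := by positivity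
      have h2 : ‖QQ ff ((r : ℂ) * Complex.exp ((t : ℂ) * Complex.I))‖ =
        4 * ρ ^ 2 * Real.exp (-(r ^ 2)⁻¹) * r ^ 2 *
        ‖F ((4 * (Real.cos t : ℂ) + ρ * (Real.sin t : ℂ) * I) /
          (4 * (Real.cos t : ℂ) - ρ * (Real.sin t : ℂ) * I))‖ := by
        rw [h1, norm_mul, Complex.norm_exp_ofReal_mul_I, mul_one, Complex.norm_real,
          Real.norm_eq_abs, abs_of_nonneg hK]
      rw [h2]
      exact h1)
  simp only [mul_zero, zero_add] at hfinal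
  linarith

end Pool.Agent.TH196.Loew
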